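import Pool.Agent.H15.OneP.Kap

/-! Module C6: the cycle of an interior vertex all of whose sides are good. -/

namespace Pool.Agent.H74.OneP

open Equiv Equiv.Perm Drawing

theorem c6 (hs : StepStmt) (hc : CornerStmt) (hd : DegStmt) (hv : VisitStmt) : FullStmt := by
  intro M G hX τ hτ e he hall x hx
  have hin : ∀ e', M.org e' = M.org e → inter e' := fun e' h => inter_congr h he
  -- the crossing dart of the side after `e'`
  have hiter : ∀ n : ℕ, M.org ((M.rot ^ n) e) = M.org e := by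
    intro n
    induction n with
    | zero => rfl
    | succ n ih => rw [pow_succ', Perm.mul_apply, org_rot]; exact ih
  -- one step, with a general predicate
  have hstep : ∀ (P : M.D → Prop), (∀ u, M.org (M.rev u) = M.org e → P u) →
      (∀ u e', M.org e' = M.org e → M.org (M.rev u) = M.org (M.rev e') → P u) →
      ∀ e', M.org e' = M.org e → ∀ x y : M.XD, x.1 = kp (M.nxt e') →
      y.1 = kp (M.nxt (M.rot e')) → M.rho⁻¹ (τ x) = y ∧ ∀ u, Trav x u → P u := by
    intro P h1 h2 e' he' x y hx hy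
    have o1 : M.org (M.rot e') = M.org e := (org_rot e').trans he'
    have o2 : M.org (M.rot (M.rot e')) = M.org e := (org_rot _).trans o1
    refine hs M τ hτ P (M.nxt e') (M.nxt (M.rot e')) ?_ (hall e' he').1 (hall _ o1).1 ?_ ?_ ?_
      x y hx hy
    · rw [cr_congr (org_nxt e')]; exact (hin e' he' e' rfl).2
    · intro _
      exact h2 _ e' he' (by rw [rev_rev', org_nxt])
    · rw [kap_nx hc G (hin e' he')]
      have q := hin (M.rot e') o1 (M.rot e') rfl
      refine LkP.step _ _ q.2 (by rw [rev_rev']; exact q.1) (h1 _ (by rw [rev_rev']; exact o1)) ?_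
      exact LkP.refl _
    · intro hn
      refine h2 _ (M.rot (M.rot e')) o2 ?_
      rcases (hc M G (M.rot e') (hin _ o1)).2 with h | h
      · rw [← org_nxt (M.nxt (M.rot e')), h.2]
      · exact absurd h.1 hn
  have hstep' : ∀ e', M.org e' = M.org e → ∀ x y : M.XD, x.1 = kp (M.nxt e') →
      y.1 = kp (M.nxt (M.rot e')) → M.rho⁻¹ (τ x) = y := by
    intro e' he' x y hx hy
    exact (hstep (fun _ => True) (fun _ _ => trivial) (fun _ _ _ _ => trivial) e' he' x y hx hy).1
  have hpow : ∀ n : ℕ, (((M.rho⁻¹ * τ) ^ n) x).1 = kp (M.nxt ((M.rot ^ n) e)) := by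
    intro n
    induction n with
    | zero => exact hx
    | succ n ih =>
      rw [pow_succ' (M.rho⁻¹ * τ), Perm.mul_apply, pow_succ' M.rot, Perm.mul_apply]
      have o := hiter n
      have o1 : M.org (M.rot ((M.rot ^ n) e)) = M.org e := (org_rot _).trans o
      have := hstep' _ o _ ⟨kp (M.nxt (M.rot ((M.rot ^ n) e))), cr_kp (hall _ o1).1⟩ ih rfl
      rw [Perm.mul_apply, this]
  -- every dart at the vertex occurs
  have hocc : ∀ e', M.org e' = M.org e → ∀ x' : M.XD, x'.1 = kp (M.nxt e') →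
      (M.rho⁻¹ * τ).SameCycle x x' := by
    intro e' he' x' hx'
    obtain ⟨n, hn⟩ := ((M.org_iff e e').1 he'.symm).exists_nat_pow_eq
    refine ⟨(n : ℤ), ?_⟩
    rw [zpow_natCast]
    apply Subtype.ext
    rw [hpow n, hn, hx']
  have hcyc : ∀ x', (M.rho⁻¹ * τ).SameCycle x x' → ∃ e', M.org e' = M.org e ∧
      x'.1 = kp (M.nxt e') := by
    intro x' h
    obtain ⟨n, hn⟩ := h.exists_nat_pow_eq
    exact ⟨(M.rot ^ n) e, hiter n, by rw [← hn]; exact hpow n⟩
  have htar : ∀ e', M.org e' = M.org e → M.org (M.rev (kp (M.nxt e'))) =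
      M.org (M.rev (M.rot e')) := fun e' he' => kap_target hc G (hin e' he') (hall e' he').1
  have hC : ∀ e', M.org e' = M.org e → ∃ x', (M.rho⁻¹ * τ).SameCycle x x' ∧
      M.org (M.rev x'.1) = M.org (M.rev e') := by
    intro e' he'
    have o : M.org (M.rot⁻¹ e') = M.org e := (org_rotinv e').trans he'
    refine ⟨⟨kp (M.nxt (M.rot⁻¹ e')), cr_kp (hall _ o).1⟩, hocc _ o _ rfl, ?_⟩
    have := htar _ o
    rw [this]
    simp
  refine ⟨?_, ?_, ?_, ?_, ?_, ?_⟩
  · refine ⟨M.org e, Or.inl rfl, ?_⟩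
    intro x' e' hsc he' hg hx'
    left
    obtain ⟨e'', h1, h2⟩ := hcyc x' hsc
    have := kap_own (hin _ h1) he' (hall _ h1).1 hg (h2.symm.trans hx')
    rw [← this]; exact h1
  · intro e₂ x₂ he₂ hg hx₂ h
    rcases h with h | ⟨e', h1, h2⟩
    · exact hocc e₂ h x₂ hx₂
    · exact absurd (inter_congr h2 he₂) (hall e' h1).2
  · intro e' he'
    exact Or.inr (hC e' he')
  · intro x' u hsc ht
    obtain ⟨e', h1, h2⟩ := hcyc x' hsc
    have o1 : M.org (M.rot e') = M.org e := (org_rot e').trans h1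
    refine (hstep (fun u => inter (M.rev u) ∨ ∃ x'', (M.rho⁻¹ * τ).SameCycle x x'' ∧
      M.org (M.rev x''.1) = M.org (M.rev u)) ?_ ?_ e' h1 x'
      ⟨kp (M.nxt (M.rot e')), cr_kp (hall _ o1).1⟩ h2 rfl).2 u ht
    · intro u hu
      left
      exact hin _ hu
    · intro u e'' he'' hu
      right
      obtain ⟨x'', h3, h4⟩ := hC e'' he''
      exact ⟨x'', h3, h4.trans hu.symm⟩
  · intro h2
    have := hpow 2
    apply Subtype.ext
    have h3 : (M.rot ^ 2) e = e := by rw [pow_two, Perm.mul_apply]; exact h2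
    rw [h3] at this
    rw [hx, ← this]
    rfl
  · intro h4 h2
    have k0 := hpow 0
    have k1 := hpow 1
    have k2 := hpow 2
    have k3 := hpow 3
    have k4 := hpow 4
    set x₁ := M.rho⁻¹ (τ x) with hx₁
    set x₂ := M.rho⁻¹ (τ x₁) with hx₂
    set x₃ := M.rho⁻¹ (τ x₂) with hx₃
    have j1 : x₁.1 = kp (M.nxt (M.rot e)) := k1
    have j2 : x₂.1 = kp (M.nxt (M.rot (M.rot e))) := k2
    have j3 : x₃.1 = kp (M.nxt (M.rot (M.rot (M.rot e)))) := k3
    have j4 : (M.rho⁻¹ (τ x₃)).1 = kp (M.nxt (M.rot (M.rot (M.rot (M.rot e))))) := k4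
    rw [h4, hx] at j4
    have o0 : M.org e = M.org e := rfl
    have o1 : M.org (M.rot e) = M.org e := org_rot e
    have o2 : M.org (M.rot (M.rot e)) = M.org e := (org_rot _).trans o1
    have o3 : M.org (M.rot (M.rot (M.rot e))) = M.org e := (org_rot _).trans o2
    have o4 : M.org (M.rot (M.rot (M.rot (M.rot e)))) = M.org e := (org_rot _).trans o3
    have r4 : e = M.rot (M.rot (M.rot (M.rot e))) :=
      kap_own he (hin _ o4) (hall _ o0).1 (hall _ o4).1 j4
    have r2 : M.rot (M.rot e) ≠ e := by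
      intro h
      apply h2
      apply Subtype.ext
      rw [j2, hx, h]
    have r1 : M.rot e ≠ e := (hv M G).2 e (he e rfl).1
    have t0 : M.org (M.rev x.1) = M.org (M.rev (M.rot e)) := by rw [hx]; exact htar _ o0
    have t1 : M.org (M.rev x₁.1) = M.org (M.rev (M.rot (M.rot e))) := by rw [j1]; exact htar _ o1
    have t2 : M.org (M.rev x₂.1) = M.org (M.rev (M.rot (M.rot (M.rot e)))) := by
      rw [j2]; exact htar _ o2
    have t3 : M.org (M.rev x₃.1) = M.org (M.rev e) := by
      rw [j3, htar _ o3, ← r4]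
    refine ⟨x, x₁, x₂, x₃, SameCycle.refl _ _, rfl, rfl, rfl, Or.inl ⟨?_, ?_, ?_⟩⟩
    · rw [hτ.same, t0, t2]
      intro h
      exact r2 (M.rot.injective (kap_ends_inj G he o1 o3 h)).symm
    · rw [hτ.same, t1, t3]
      intro h
      exact r2 (kap_ends_inj G he o2 o0 h)
    · rcases hd M G e he with h | h | h
      · exact absurd h r2
      · rw [h] at r4
        exact absurd r4.symm r1
      · obtain ⟨_, k, hk, q1, q2, q3⟩ := h
        have four := cr_four hk
        have i1 : M.rot⁻¹ (M.rev k) = M.rot (M.rot (M.rot (M.rev k))) := by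
          have : M.rot⁻¹ (M.rot (M.rot (M.rot (M.rot (M.rev k))))) =
              M.rot (M.rot (M.rot (M.rev k))) := by simp
          rw [four] at this; exact this
        have hfk : M.far k = M.rev (M.rot (M.rot (M.rev k))) := far_of_cr hk
        rw [hfk] at q2
        rcases q3 with ⟨q3, q4⟩ | ⟨q3, q4⟩
        · obtain ⟨y, hy⟩ : ∃ y : M.XD, y.1 = M.rot (M.rev k) :=
            ⟨⟨M.rot (M.rev k), (cr_rot _).2 hk⟩, rfl⟩
          have y1 : (M.rho y).1 = M.rot (M.rot (M.rev k)) := by rw [← hy]; rfl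
          have y2 : (M.rho (M.rho y)).1 = M.rot (M.rot (M.rot (M.rev k))) := by rw [← y1]; rfl
          have y3 : (M.rho (M.rho (M.rho y))).1 = M.rev k := by rw [← four, ← y2]; rfl
          refine ⟨y, ?_, ?_, Or.inl ⟨?_, ?_⟩⟩
          · rw [hτ.same, t0, hy]; exact q3.symm
          · rw [hτ.same, t2, y2, ← i1]; exact q4.symm
          · rw [hτ.same, t1, y1]; exact q2.symm
          · rw [hτ.same, t3, y3, rev_rev']; exact q1.symm
        · obtain ⟨y, hy⟩ : ∃ y : M.XD, y.1 = M.rot⁻¹ (M.rev k) :=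
            ⟨⟨M.rot⁻¹ (M.rev k), (cr_rotinv _).2 hk⟩, rfl⟩
          have y1 : (M.rho y).1 = M.rev k := by
            have : (M.rho y).1 = M.rot y.1 := rfl
            rw [this, hy]; simp
          have y2 : (M.rho (M.rho y)).1 = M.rot (M.rev k) := by rw [← y1]; rfl
          have y3 : (M.rho (M.rho (M.rho y))).1 = M.rot (M.rot (M.rev k)) := by rw [← y2]; rfl
          refine ⟨y, ?_, ?_, Or.inr ⟨?_, ?_⟩⟩
          · rw [hτ.same, t0, hy]; exact q4.symm
          · rw [hτ.same, t2, y2]; exact q3.symm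
          · rw [hτ.same, t3, y1, rev_rev']; exact q1.symm
          · rw [hτ.same, t1, y3]; exact q2.symm

end Pool.Agent.H74.OneP
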