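import Pool.Agent.H74.OneP.UStmts

/-! Common lemmas on the crossing darts `kp (nxt e)` of good sides at interior vertices. -/

namespace Pool.Agent.H74.OneP

open Equiv Equiv.Perm Drawing

variable {M : Drawing}

/-- next corner on the face of an interior dart -/
theorem kap_nx (hc : CornerStmt) (G : M.Good) {e : M.D} (he : inter e) :
    nx (M.nxt e) = M.rev (M.rot e) := by
  unfold nx
  rcases (hc M G e he).2 with h | h
  · rw [if_neg h.1]; exact h.2
  · rw [if_pos h.1]; exact h.2

/-- the end of the crossing dart of a good side -/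
theorem org_rev_kp {k : M.D} (h : gs k) : M.org (M.rev (kp k)) = M.org (nx k) := by
  unfold kp nx
  by_cases hk : M.cr (M.rev k)
  · rw [if_pos hk, if_pos hk, ← org_nxt]
  · rw [if_neg hk, if_neg hk]
    rcases h with h | h
    · exact absurd h hk
    · rw [← org_nxt, h.2.2, org_nxt]

theorem kap_target (hc : CornerStmt) (G : M.Good) {e : M.D} (he : inter e)
    (h : gs (M.nxt e)) : M.org (M.rev (kp (M.nxt e))) = M.org (M.rev (M.rot e)) := by
  rw [org_rev_kp h, kap_nx hc G he]

/-- the origin of `kp k` seen from `k`: `rev (kp k)` has a crossing reverse -/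
theorem kap_own_aux {e e' : M.D} (he : inter e) (h : ¬ M.cr (M.rev (M.nxt e')))
    (hg : gs (M.nxt e')) (hh : M.nxt (M.nxt e) = M.nxt (M.nxt (M.rev (M.nxt e')))) : False := by
  have h1 : e = M.rev (M.nxt e') := M.nxt.injective (M.nxt.injective hh)
  rcases hg with hg | hg
  · exact h hg
  · obtain ⟨_, g2, g3⟩ := hg
    rw [← h1] at g2 g3
    -- x := nxt (nxt e) crossing
    have hx : M.cr (M.nxt (M.nxt e)) := by rw [cr_congr (org_nxt _)]; exact g2
    have ho : M.org (M.rev (M.nxt (M.nxt e))) = M.org e := by rw [← org_nxt, g3]
    have := (he _ ho).2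
    rw [rev_rev'] at this
    exact this hx

/-- a crossing dart belongs to at most one good side at an interior vertex -/
theorem kap_own {e e' : M.D} (he : inter e) (he' : inter e') (hg : gs (M.nxt e))
    (hg' : gs (M.nxt e')) (h : kp (M.nxt e) = kp (M.nxt e')) : e = e' := by
  unfold kp at h
  split_ifs at h with h1 h2 h2
  · exact M.nxt.injective (M.nxt.injective h)
  · exact (kap_own_aux he h2 hg' h).elim
  · exact (kap_own_aux he' h1 hg h.symm).elim
  · exact M.nxt.injective (M.rev.injective (M.nxt.injective (M.nxt.injective h)))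

theorem inter_congr {e e' : M.D} (h : M.org e' = M.org e) (he : inter e) : inter e' :=
  fun e'' h' => he e'' (h'.trans h)

/-- different darts at an interior vertex lead to different vertices -/
theorem kap_ends_inj (G : M.Good) {e a b : M.D} (he : inter e)
    (ha : M.org a = M.org e) (hb : M.org b = M.org e)
    (h : M.org (M.rev a) = M.org (M.rev b)) : a = b := by
  refine G.no_multi (he a ha).1 (ha.trans hb.symm) ?_
  rw [far_of_not (he a ha).2, far_of_not (he b hb).2]; exact h

end Pool.Agent.H74.OneP
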